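import Pool.Agent.Helper88.M.Rep
import Pool.Agent.Helper13.M.Defs

/-! Block W2 of project M. -/

namespace Pool.Agent.M

open MeasureTheory Pool.Agent.Helper88.M

/-- **BLOCK W2** (Haar-Zariski). -/
theorem w2 : StmtW2 := by
  classical
  intro G _ _ _ _ _ P _ _ htor hdiv hfin hopen hcos ε hε
  let _ : MeasurableSpace G := borel G
  have hB : BorelSpace G := ⟨rfl⟩
  let μ : Measure G := Measure.haarMeasure ⊤
  have hp : IsProbabilityMeasure μ := ⟨by
    have := Measure.haarMeasure_self (K₀ := (⊤ : TopologicalSpace.PositiveCompacts G))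
    simpa using this⟩
  obtain ⟨n, e, h⟩ := exists_coord hdiv hfin
  have hdet : ∀ g : G, MvPolynomial.eval (fun p => h.rep g p.1 p.2) (detPoly n) =
      (h.mat g - 1).det := fun g => eval_detPoly n (h.rep g)
  -- the zero set has measure zero
  have hzero : μ {g : G | (h.mat g - 1).det = 0} = 0 := by
    by_contra hne
    have hne' : μ {g : G | MvPolynomial.eval (fun p => h.rep g p.1 p.2) (detPoly n) = 0} ≠ 0 := by
      simpa only [hdet] using hne
    obtain ⟨U, g0, hU, hU2⟩ := haar_zariski μ h.rep (h.continuous_rep hopen) (detPoly n) hne'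
    have hH : IsOpen ((U.comap (MulAut.conj g0⁻¹).toMonoidHom : Subgroup G) : Set G) := by
      have h1 : ((U.comap (MulAut.conj g0⁻¹).toMonoidHom : Subgroup G) : Set G) =
          (fun g => g0⁻¹ * g * g0) ⁻¹' (U : Set G) := by
        ext g
        simp [Subgroup.mem_comap]
      rw [h1]
      exact hU.preimage (by fun_prop)
    obtain ⟨g, hg, hg2⟩ := hcos _ hH g0
    have h2 : g0⁻¹ * g * g0 ∈ U := by
      have h3 : (MulAut.conj g0⁻¹).toMonoidHom g ∈ U := hg
      simpa using h3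
    have h4 := hU2 _ h2
    rw [hdet] at h4
    have h5 : g0 * (g0⁻¹ * g * g0) = g * g0 := by group
    rw [h5] at h4
    exact h.infinite htor _ h4 hg2
  -- the sets with a fixed point of order 2 ^ (j + 1)
  let A : ℕ → Set G := fun j => {g | ∃ p : P, 2 ^ (j + 1) • p = 0 ∧ 2 ^ j • p ≠ 0 ∧ g • p = p}
  have hAo : ∀ j, IsOpen (A j) := by
    intro j
    have h1 : A j = ⋃ p ∈ {p : P | 2 ^ (j + 1) • p = 0 ∧ 2 ^ j • p ≠ 0}, {g : G | g • p = p} := by
      ext g
      simp only [A, Set.mem_setOf_eq, Set.mem_iUnion, exists_prop]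
      constructor
      · rintro ⟨p, h1, h2, h3⟩
        exact ⟨p, ⟨h1, h2⟩, h3⟩
      · rintro ⟨p, ⟨h1, h2⟩, h3⟩
        exact ⟨p, h1, h2, h3⟩
    rw [h1]
    exact isOpen_biUnion fun p _ => hopen p
  have hanti : Antitone A := by
    apply antitone_nat_of_succ_le
    rintro j g ⟨p, h1, h2, h3⟩
    refine ⟨2 • p, ?_, ?_, ?_⟩
    · rw [smul_smul, ← pow_succ]
      exact h1
    · rw [smul_smul, ← pow_succ]
      exact h2
    · rw [smul_comm, h3]
  have hint : μ (⋂ j, A j) = 0 := by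
    apply measure_mono_null _ hzero
    intro g hg
    rw [Set.mem_iInter] at hg
    by_contra hne
    obtain ⟨t, ht⟩ := h.bounded htor g hne
    obtain ⟨p, _, h2, h3⟩ := hg t
    exact h2 (ht p h3)
  have htend : Filter.Tendsto (fun j => μ (A j)) Filter.atTop (nhds 0) := by
    rw [← hint]
    exact tendsto_measure_iInter_atTop (fun j => (hAo j).measurableSet.nullMeasurableSet) hanti
      ⟨0, measure_ne_top μ _⟩
  obtain ⟨j, hj⟩ := (htend.eventually (gt_mem_nhds (ENNReal.ofReal_pos.2 hε))).exists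
  refine ⟨j + 1, Nat.succ_pos j, fun N _ hNo hN => ?_⟩
  have hfinq : Finite (G ⧸ N) := Subgroup.quotient_finite_of_isOpen N hNo
  rw [Nat.add_sub_cancel]
  set S : Set (G ⧸ N) := {q | ∃ g : G, (g : G ⧸ N) = q ∧
        ∃ p : P, 2 ^ (j + 1) • p = 0 ∧ 2 ^ j • p ≠ 0 ∧ g • p = p} with hS
  have hcard : Nat.card {q : G ⧸ N // ∃ g : G, (g : G ⧸ N) = q ∧
        ∃ p : P, 2 ^ (j + 1) • p = 0 ∧ 2 ^ j • p ≠ 0 ∧ g • p = p} = S.ncard := rfl
  rw [hcard]
  have hSf : S.Finite := Set.toFinite S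
  have h1 := measure_preimage_mk μ N hNo S hSf
  have h2 := measure_preimage_mk μ N hNo Set.univ (Set.toFinite _)
  rw [Set.preimage_univ, measure_univ, Set.ncard_univ] at h2
  have h3 : ((fun g : G => (g : G ⧸ N)) ⁻¹' S) ⊆ A j := by
    rintro x ⟨g, hg, p, hp1, hp2, hp3⟩
    refine ⟨p, hp1, hp2, ?_⟩
    have h4 : g⁻¹ * x ∈ N := QuotientGroup.eq.1 hg
    have h5 : (g⁻¹ * x) • p = p := hN _ h4 p hp1
    rw [mul_smul, inv_smul_eq_iff] at h5
    rw [h5, hp3]
  have h5 : (S.ncard : ENNReal) * μ (N : Set G) < ENNReal.ofReal ε := by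
    rw [← h1]
    exact lt_of_le_of_lt (measure_mono h3) hj
  have hc : 0 < Nat.card (G ⧸ N) := Nat.card_pos
  have hcR : (0:ℝ) < Nat.card (G ⧸ N) := by exact_mod_cast hc
  have hμN : (μ (N : Set G)).toReal = 1 / Nat.card (G ⧸ N) := by
    have h6 := congrArg ENNReal.toReal h2
    rw [ENNReal.toReal_mul, ENNReal.toReal_natCast, ENNReal.toReal_one] at h6
    field_simp
    linarith
  have h7 : (S.ncard : ℝ) * (μ (N : Set G)).toReal < ε := by
    have h8 := (ENNReal.toReal_lt_toReal (ne_top_of_lt h5) ENNReal.ofReal_ne_top).2 h5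
    rw [ENNReal.toReal_mul, ENNReal.toReal_natCast, ENNReal.toReal_ofReal hε.le] at h8
    exact h8
  rw [hμN, mul_one_div, div_lt_iff₀ hcR] at h7
  exact h7.le

end Pool.Agent.M
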