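import Mathlib

/-! Haar measure and Zariski closed sets: a polynomial in the entries of a continuous
matrix representation of a topological group with a finite left invariant measure which
vanishes on a set of positive measure vanishes on a coset of an open subgroup. -/

namespace Pool.Agent.Helper88.M

open MeasureTheory MvPolynomial Pointwise

section Zar

variable {G : Type*} [Group G] {K : Type*} [CommRing K] {ι : Type*} [Fintype ι] [DecidableEq ι]

/-- value of a polynomial in the matrix entries at `g` -/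
noncomputable def ev (ρ : G →* Matrix ι ι K) (g : G) : MvPolynomial (ι × ι) K →+* K :=
  MvPolynomial.eval (fun p => ρ g p.1 p.2)

/-- common zeros of an ideal of polynomials -/
def Zer (ρ : G →* Matrix ι ι K) (I : Ideal (MvPolynomial (ι × ι) K)) : Set G :=
  {g | ∀ F ∈ I, ev ρ g F = 0}

/-- left translation of polynomials -/
noncomputable def tr (ρ : G →* Matrix ι ι K) (h : G) :
    MvPolynomial (ι × ι) K →+* MvPolynomial (ι × ι) K :=
  (MvPolynomial.aeval (fun p : ι × ι => ∑ k, C (ρ h p.1 k) * X (k, p.2))).toRingHom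

theorem ev_tr (ρ : G →* Matrix ι ι K) (h g : G) (F : MvPolynomial (ι × ι) K) :
    ev ρ g (tr ρ h F) = ev ρ (h * g) F := by
  have key : (ev ρ g).comp (tr ρ h) = ev ρ (h * g) := by
    apply MvPolynomial.ringHom_ext
    · intro r
      simp [ev, tr]
    · intro p
      simp [ev, tr, Matrix.mul_apply]
  exact congrArg (fun f => f F) key

theorem zer_anti (ρ : G →* Matrix ι ι K) {I J : Ideal (MvPolynomial (ι × ι) K)} (h : I ≤ J) :
    Zer ρ J ⊆ Zer ρ I := fun _ hg F hF => hg F (h hF)

theorem zer_span (ρ : G →* Matrix ι ι K) (S : Set (MvPolynomial (ι × ι) K)) (g : G) :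
    g ∈ Zer ρ (Ideal.span S) ↔ ∀ F ∈ S, ev ρ g F = 0 := by
  constructor
  · intro h F hF
    exact h F (Ideal.subset_span hF)
  · intro h F hF
    have : Ideal.span S ≤ RingHom.ker (ev ρ g) := Ideal.span_le.2 (fun F hF => h F hF)
    exact this hF

theorem zer_sup (ρ : G →* Matrix ι ι K) (I J : Ideal (MvPolynomial (ι × ι) K)) :
    Zer ρ (I ⊔ J) = Zer ρ I ∩ Zer ρ J := by
  ext g
  constructor
  · intro h
    exact ⟨zer_anti ρ le_sup_left h, zer_anti ρ le_sup_right h⟩
  · rintro ⟨h1, h2⟩ F hF
    have h3 : I ⊔ J ≤ RingHom.ker (ev ρ g) := sup_le (fun F hF => h1 F hF) (fun F hF => h2 F hF)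
    exact h3 hF

theorem zer_map (ρ : G →* Matrix ι ι K) (I : Ideal (MvPolynomial (ι × ι) K)) (h : G) :
    Zer ρ (I.map (tr ρ h)) = h⁻¹ • Zer ρ I := by
  ext g
  rw [Set.mem_smul_set_iff_inv_smul_mem, inv_inv, smul_eq_mul]
  rw [Ideal.map, zer_span]
  constructor
  · intro hg F hF
    rw [← ev_tr]
    exact hg _ ⟨F, hF, rfl⟩
  · rintro hg _ ⟨F, hF, rfl⟩
    rw [ev_tr]
    exact hg F hF

end Zar

section Top

variable {G : Type*} [Group G] [TopologicalSpace G] {K : Type*} [CommRing K]
  [TopologicalSpace K] [IsTopologicalRing K] [T1Space K]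
  {ι : Type*} [Fintype ι] [DecidableEq ι]

theorem continuous_ev (ρ : G →* Matrix ι ι K) (hρ : Continuous ρ) (F : MvPolynomial (ι × ι) K) :
    Continuous (fun g => ev ρ g F) := by
  unfold ev
  have h1 : Continuous (fun g : G => (fun p : ι × ι => ρ g p.1 p.2)) := by
    apply continuous_pi
    intro p
    exact hρ.matrix_elem p.1 p.2
  exact (MvPolynomial.continuous_eval F).comp h1

theorem isClosed_zer (ρ : G →* Matrix ι ι K) (hρ : Continuous ρ)
    (I : Ideal (MvPolynomial (ι × ι) K)) : IsClosed (Zer ρ I) := by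
  have : Zer ρ I = ⋂ F ∈ I, (fun g => ev ρ g F) ⁻¹' {0} := by
    ext g
    simp [Zer]
  rw [this]
  exact isClosed_biInter (fun F _ => IsClosed.preimage (continuous_ev ρ hρ F) isClosed_singleton)

end Top

/-- finitely many translates when they are almost disjoint -/
theorem finite_index_stab {G : Type*} [Group G] [TopologicalSpace G] [IsTopologicalGroup G]
    [MeasurableSpace G] [BorelSpace G] (μ : Measure G) [IsFiniteMeasure μ]
    [μ.IsMulLeftInvariant] (Y : Set G) (hYc : IsClosed Y) (hY : μ Y ≠ 0)
    (hd : ∀ h : G, h • Y = Y ∨ μ (h • Y ∩ Y) = 0) :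
    (MulAction.stabilizer G Y).FiniteIndex := by
  classical
  set H := MulAction.stabilizer G Y
  -- the translates, indexed by the cosets
  let f : G ⧸ H → Set G := fun q => q.out • Y
  have hmeas : ∀ q, MeasurableSet (f q) := fun q => (hYc.smul q.out).measurableSet
  have hdis : Pairwise (fun a b => AEDisjoint μ (f a) (f b)) := by
    intro a b hab
    change μ (a.out • Y ∩ b.out • Y) = 0
    have h1 : a.out • Y ∩ b.out • Y = b.out • ((b.out⁻¹ * a.out) • Y ∩ Y) := by
      rw [Set.smul_set_inter, smul_smul, mul_inv_cancel_left]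
    rw [h1, measure_smul]
    rcases hd (b.out⁻¹ * a.out) with h2 | h2
    · exfalso
      apply hab
      have h3 : b.out⁻¹ * a.out ∈ H := h2
      have h4 : (QuotientGroup.mk b.out : G ⧸ H) = QuotientGroup.mk a.out := QuotientGroup.eq.2 h3
      rw [QuotientGroup.out_eq', QuotientGroup.out_eq'] at h4
      exact h4.symm
    · exact h2
  have hfin : Finite (G ⧸ H) := by
    by_contra hinf
    rw [not_finite_iff_infinite] at hinf
    -- take a countable subfamily
    obtain ⟨e⟩ : Nonempty (ℕ ↪ G ⧸ H) := ⟨Infinite.natEmbedding _⟩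
    have h5 : μ (⋃ i : ℕ, f (e i)) = ∑' i : ℕ, μ (f (e i)) := by
      apply measure_iUnion₀
      · intro i j hij
        exact hdis (fun h => hij (e.injective h))
      · intro i
        exact (hmeas _).nullMeasurableSet
    have h6 : ∑' i : ℕ, μ (f (e i)) = ⊤ := by
      have h7 : ∀ i, μ (f (e i)) = μ Y := fun i => measure_smul μ _ _
      simp only [h7]
      exact ENNReal.tsum_const_eq_top_of_ne_zero hY
    exact measure_ne_top μ _ (h5.trans h6)
  exact Subgroup.finiteIndex_of_finite_quotient

/-- THE THEOREM (Haar measure and Zariski closed sets) -/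
theorem haar_zariski {G : Type*} [Group G] [TopologicalSpace G] [IsTopologicalGroup G]
    [MeasurableSpace G] [BorelSpace G] (μ : Measure G) [IsFiniteMeasure μ]
    [μ.IsMulLeftInvariant] {K : Type*} [CommRing K] [IsNoetherianRing K]
    [TopologicalSpace K] [IsTopologicalRing K] [T1Space K] {ι : Type*} [Fintype ι]
    [DecidableEq ι] (ρ : G →* Matrix ι ι K) (hρ : Continuous ρ) (F : MvPolynomial (ι × ι) K)
    (hF : μ {g | MvPolynomial.eval (fun p => ρ g p.1 p.2) F = 0} ≠ 0) :
    ∃ (U : Subgroup G) (g0 : G), IsOpen (U : Set G) ∧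
      ∀ u ∈ U, MvPolynomial.eval (fun p => ρ (g0 * u) p.1 p.2) F = 0 := by
  classical
  -- a maximal ideal among those containing F with zero set of positive measure
  obtain ⟨I, ⟨hFI, hpos⟩, hmax⟩ := set_has_maximal_iff_noetherian.2
    (inferInstance : IsNoetherian (MvPolynomial (ι × ι) K) (MvPolynomial (ι × ι) K))
    {I : Ideal (MvPolynomial (ι × ι) K) | F ∈ I ∧ μ (Zer ρ I) ≠ 0}
    ⟨Ideal.span {F}, Ideal.subset_span rfl, by
      have : Zer ρ (Ideal.span {F}) = {g | MvPolynomial.eval (fun p => ρ g p.1 p.2) F = 0} := by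
        ext g
        rw [zer_span]
        simp [ev]
      rw [this]
      exact hF⟩
  set Y := Zer ρ I with hYdef
  have hYc : IsClosed Y := isClosed_zer ρ hρ I
  -- positive intersection means containment
  have hcont : ∀ h : G, μ (h • Y ∩ Y) ≠ 0 → Y ⊆ h • Y := by
    intro h hh
    have h1 : Zer ρ (I ⊔ Ideal.map (tr ρ h⁻¹) I) = Y ∩ h • Y := by
      rw [zer_sup, zer_map, inv_inv]
    have h2 : ¬ (I < I ⊔ Ideal.map (tr ρ h⁻¹) I) := by
      apply hmax
      refine ⟨Ideal.mem_sup_left hFI, ?_⟩
      rw [h1, Set.inter_comm]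
      exact hh
    have h3 : I = I ⊔ Ideal.map (tr ρ h⁻¹) I := by
      by_contra h4
      exact h2 (lt_of_le_of_ne le_sup_left h4)
    rw [← h3] at h1
    have h4 : Y = Y ∩ h • Y := h1
    intro y hy
    exact (h4.subset hy).2
  have hd : ∀ h : G, h • Y = Y ∨ μ (h • Y ∩ Y) = 0 := by
    intro h
    by_cases h0 : μ (h • Y ∩ Y) = 0
    · right; exact h0
    · left
      apply Set.Subset.antisymm
      · have h5 : Y ⊆ h⁻¹ • Y := by
          apply hcont
          have h6 : h⁻¹ • Y ∩ Y = h⁻¹ • (h • Y ∩ Y) := by
            rw [Set.smul_set_inter, smul_smul, inv_mul_cancel, one_smul, Set.inter_comm]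
          rw [h6, measure_smul]
          exact h0
        intro y hy
        obtain ⟨z, hz, rfl⟩ := hy
        obtain ⟨w, hw, hw2⟩ := h5 hz
        have : h • z = w := by
          rw [← hw2]
          simp
        change h • z ∈ Y
        rw [this]
        exact hw
      · exact hcont h h0
  have hfi := finite_index_stab μ Y hYc hpos hd
  set H := MulAction.stabilizer G Y with hH
  have hHc : IsClosed (H : Set G) := by
    have h7 : (H : Set G) = ⋂ y ∈ Y, ((fun h : G => h * y) ⁻¹' Y ∩ (fun h : G => h⁻¹ * y) ⁻¹' Y) := by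
      ext h
      simp only [SetLike.mem_coe, Set.mem_iInter, Set.mem_inter_iff, Set.mem_preimage]
      constructor
      · intro hh y hy
        have h8 : h • Y = Y := hh
        constructor
        · rw [← h8]
          exact ⟨y, hy, rfl⟩
        · have h9 : y ∈ h • Y := by rw [h8]; exact hy
          rw [Set.mem_smul_set_iff_inv_smul_mem] at h9
          exact h9
      · intro hh
        change h • Y = Y
        apply Set.Subset.antisymm
        · rintro _ ⟨y, hy, rfl⟩
          exact (hh y hy).1
        · intro y hy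
          rw [Set.mem_smul_set_iff_inv_smul_mem]
          exact (hh y hy).2
    rw [h7]
    apply isClosed_biInter
    intro y _
    exact (hYc.preimage (continuous_mul_const y)).inter
      (hYc.preimage (continuous_inv.mul continuous_const))
  have hHo : IsOpen (H : Set G) := by
    have := hfi
    exact Subgroup.isOpen_of_isClosed_of_finiteIndex H hHc
  have hne : Y.Nonempty := by
    rw [Set.nonempty_iff_ne_empty]
    intro h10
    rw [h10] at hpos
    exact hpos measure_empty
  obtain ⟨y, hy⟩ := hne
  refine ⟨H.map (MulAut.conj y⁻¹).toMonoidHom, y, ?_, ?_⟩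
  · have h11 : ((H.map (MulAut.conj y⁻¹).toMonoidHom : Subgroup G) : Set G) =
        (fun g => y * g * y⁻¹) ⁻¹' (H : Set G) := by
      ext g
      simp only [Subgroup.coe_map, Set.mem_image, Set.mem_preimage, SetLike.mem_coe]
      constructor
      · rintro ⟨h, hh, rfl⟩
        have : y * ((MulAut.conj y⁻¹).toMonoidHom h) * y⁻¹ = h := by
          simp [mul_assoc]
        rw [this]
        exact hh
      · intro hg
        refine ⟨_, hg, ?_⟩
        simp [mul_assoc]
    rw [h11]
    exact hHo.preimage (by fun_prop)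
  · rintro _ ⟨h, hh, rfl⟩
    have h12 : y * ((MulAut.conj y⁻¹).toMonoidHom h) = h * y := by
      simp [mul_assoc]
    rw [h12]
    have h13 : h * y ∈ Y := by
      have h14 : h • Y = Y := hh
      rw [← h14]
      exact ⟨y, hy, rfl⟩
    exact h13 F hFI

end Pool.Agent.Helper88.M
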