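import Mathlib
import Pool.Agent.Helper88.M.W2

/-! Counting form of W2: at a deep enough finite level the classes which meet the zero
set of the polynomial are a small part. -/

namespace Pool.Agent.Helper88.M

open MeasureTheory MvPolynomial Pointwise

theorem measure_fibre {G : Type*} [Group G] [TopologicalSpace G] [IsTopologicalGroup G]
    [MeasurableSpace G] [BorelSpace G] (μ : Measure G)
    [μ.IsMulLeftInvariant] (N : Subgroup G) (q : G ⧸ N) :
    μ ((fun g : G => (g : G ⧸ N)) ⁻¹' {q}) = μ (N : Set G) := by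
  induction q using QuotientGroup.induction_on with
  | H g =>
    have : ((fun g : G => (g : G ⧸ N)) ⁻¹' {(g : G ⧸ N)}) = g • (N : Set G) := by
      ext x
      rw [Set.mem_preimage, Set.mem_singleton_iff, Set.mem_smul_set_iff_inv_smul_mem, smul_eq_mul]
      constructor
      · intro h
        exact QuotientGroup.eq.1 h.symm
      · intro h
        exact (QuotientGroup.eq.2 h).symm
    rw [this, measure_smul]

theorem measure_preimage_mk {G : Type*} [Group G] [TopologicalSpace G] [IsTopologicalGroup G]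
    [MeasurableSpace G] [BorelSpace G] (μ : Measure G)
    [μ.IsMulLeftInvariant] (N : Subgroup G) (hN : IsOpen (N : Set G)) (S : Set (G ⧸ N))
    (hS : S.Finite) :
    μ ((fun g : G => (g : G ⧸ N)) ⁻¹' S) = (S.ncard : ENNReal) * μ (N : Set G) := by
  classical
  have h1 : ((fun g : G => (g : G ⧸ N)) ⁻¹' S) =
      ⋃ q ∈ hS.toFinset, ((fun g : G => (g : G ⧸ N)) ⁻¹' {q}) := by
    ext x
    simp
  rw [h1, measure_biUnion_finset]
  · rw [Finset.sum_congr rfl (fun q _ => measure_fibre μ N q), Finset.sum_const,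
      nsmul_eq_mul, Set.ncard_eq_toFinset_card S hS]
  · intro a _ b _ hab
    change Disjoint _ _
    rw [Set.disjoint_left]
    intro x hx hy
    exact hab (hx.symm.trans hy)
  · intro q _
    have h2 : IsOpen ((fun g : G => (g : G ⧸ N)) ⁻¹' {q}) := by
      have hd : DiscreteTopology (G ⧸ N) := QuotientGroup.discreteTopology hN
      exact (isOpen_discrete {q}).preimage QuotientGroup.continuous_mk
    exact h2.measurableSet

/-- a closed set of measure zero meets few classes at all deep levels -/
theorem small_level {G : Type*} [Group G] [TopologicalSpace G] [IsTopologicalGroup G]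
    [CompactSpace G] [TotallyDisconnectedSpace G]
    [MeasurableSpace G] [BorelSpace G] (μ : Measure G) [IsProbabilityMeasure μ]
    [μ.IsMulLeftInvariant] [μ.OuterRegular] (Z : Set G) (hZ : IsClosed Z) (h0 : μ Z = 0)
    (ε : ℝ) (hε : 0 < ε) :
    ∃ N : OpenNormalSubgroup G, ∀ M : Subgroup G, IsOpen (M : Set G) → M ≤ N.toSubgroup →
      (((fun g : G => (g : G ⧸ M)) '' Z).ncard : ℝ) < ε * Nat.card (G ⧸ M) := by
  classical
  obtain ⟨V, hZV, hVo, hV⟩ := Set.exists_isOpen_lt_of_lt Z (ENNReal.ofReal ε)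
    (by rw [h0]; exact ENNReal.ofReal_pos.2 hε)
  obtain ⟨W, hW, hZW⟩ := compact_open_separated_mul_right hZ.isCompact hVo hZV
  obtain ⟨N, hN⟩ := ProfiniteGrp.exist_openNormalSubgroup_sub_open_nhds_of_one
    (isOpen_interior (s := W)) (mem_interior_iff_mem_nhds.2 hW)
  refine ⟨N, fun M hMo hMN => ?_⟩
  have hfin : Finite (G ⧸ M) := Subgroup.quotient_finite_of_isOpen M hMo
  set S := (fun g : G => (g : G ⧸ M)) '' Z with hS
  have hSf : S.Finite := Set.toFinite S
  have h1 := measure_preimage_mk μ M hMo S hSf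
  have h2 := measure_preimage_mk μ M hMo Set.univ (Set.toFinite _)
  rw [Set.preimage_univ, measure_univ, Set.ncard_univ] at h2
  have h3 : ((fun g : G => (g : G ⧸ M)) ⁻¹' S) ⊆ V := by
    intro x hx
    obtain ⟨z, hz, hzx⟩ := hx
    have h4 : z⁻¹ * x ∈ M := QuotientGroup.eq.1 hzx
    apply hZW
    refine ⟨z, hz, z⁻¹ * x, interior_subset (hN (hMN h4)), ?_⟩
    simp
  have h5 : (S.ncard : ENNReal) * μ (M : Set G) < ENNReal.ofReal ε := by
    rw [← h1]
    exact lt_of_le_of_lt (measure_mono h3) hV
  have hcard : 0 < Nat.card (G ⧸ M) := Nat.card_pos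
  have hcR : (0:ℝ) < Nat.card (G ⧸ M) := by exact_mod_cast hcard
  have hμM : (μ (M : Set G)).toReal = 1 / Nat.card (G ⧸ M) := by
    have h6 := congrArg ENNReal.toReal h2
    rw [ENNReal.toReal_mul, ENNReal.toReal_natCast, ENNReal.toReal_one] at h6
    field_simp
    linarith
  have h7 : (S.ncard : ℝ) * (μ (M : Set G)).toReal < ε := by
    have h8 := (ENNReal.toReal_lt_toReal (ne_top_of_lt h5) ENNReal.ofReal_ne_top).2 h5
    rw [ENNReal.toReal_mul, ENNReal.toReal_natCast, ENNReal.toReal_ofReal hε.le] at h8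
    exact h8
  rw [hμM] at h7
  rw [mul_one_div, div_lt_iff₀ hcR] at h7
  exact h7

/-- THE COUNTING FORM: if the polynomial vanishes identically on no coset of an open
subgroup, then at all deep levels the classes meeting its zero set are few -/
theorem zariski_levels {G : Type*} [Group G] [TopologicalSpace G] [IsTopologicalGroup G]
    [CompactSpace G] [TotallyDisconnectedSpace G] {K : Type*} [CommRing K] [IsNoetherianRing K]
    [TopologicalSpace K] [IsTopologicalRing K] [T1Space K] {ι : Type*} [Fintype ι]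
    [DecidableEq ι] (ρ : G →* Matrix ι ι K) (hρ : Continuous ρ) (F : MvPolynomial (ι × ι) K)
    (hF : ∀ (U : Subgroup G) (g0 : G), IsOpen (U : Set G) →
      ∃ u ∈ U, MvPolynomial.eval (fun p => ρ (g0 * u) p.1 p.2) F ≠ 0)
    (ε : ℝ) (hε : 0 < ε) :
    ∃ N : OpenNormalSubgroup G, ∀ M : Subgroup G, IsOpen (M : Set G) → M ≤ N.toSubgroup →
      (((fun g : G => (g : G ⧸ M)) ''
        {g | MvPolynomial.eval (fun p => ρ g p.1 p.2) F = 0}).ncard : ℝ)
        < ε * Nat.card (G ⧸ M) := by
  classical
  letI : MeasurableSpace G := borel G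
  have : BorelSpace G := ⟨rfl⟩
  let μ : Measure G := Measure.haarMeasure ⊤
  have hp : IsProbabilityMeasure μ := ⟨by
    have := Measure.haarMeasure_self (K₀ := (⊤ : TopologicalSpace.PositiveCompacts G))
    simpa using this⟩
  have hc : IsClosed {g | MvPolynomial.eval (fun p => ρ g p.1 p.2) F = 0} :=
    IsClosed.preimage (continuous_ev ρ hρ F) isClosed_singleton
  apply small_level μ _ hc _ ε hε
  by_contra hne
  obtain ⟨U, g0, hU, h⟩ := haar_zariski μ ρ hρ F hne
  obtain ⟨u, hu, hu2⟩ := hF U g0 hU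
  exact hu2 (h u hu)

end Pool.Agent.Helper88.M
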